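import Mathlib

open NumberField Polynomial

namespace H39E1

/-- The number field generated by a root of a monic irreducible integer polynomial. -/
theorem exists_numberField (g : ℤ[X]) (hgm : g.Monic) (hgirr : Irreducible g) :
    ∃ (F : Type) (_ : Field F) (_ : NumberField F) (w : 𝓞 F),
      Module.finrank ℚ F = g.natDegree ∧ aeval w g = 0 ∧
      (∀ q : ℤ[X], aeval w q = 0 → g ∣ q) ∧
      (∀ (K : Type) [Field K] [CharZero K] (z : K), aeval z g = 0 →
        ∃ τ : F →+* K, τ (w : F) = z) ∧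
      (∀ (K : Type) [Field K] (τ τ' : F →+* K), τ (w : F) = τ' (w : F) → τ = τ') := by
  have hgQ : Irreducible (g.map (algebraMap ℤ ℚ)) :=
    (Monic.irreducible_iff_irreducible_map_fraction_map (K := ℚ) hgm).mp hgirr
  have hfact : Fact (Irreducible (g.map (algebraMap ℤ ℚ))) := ⟨hgQ⟩
  have hgQd : (g.map (algebraMap ℤ ℚ)).natDegree = g.natDegree := hgm.natDegree_map _
  have hfd : FiniteDimensional ℚ (AdjoinRoot (g.map (algebraMap ℤ ℚ))) :=
    (AdjoinRoot.powerBasis hgQ.ne_zero).finite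
  have hnf : NumberField (AdjoinRoot (g.map (algebraMap ℤ ℚ))) :=
    { to_charZero := inferInstance, to_finiteDimensional := hfd }
  have haev : ∀ q : ℤ[X], aeval (AdjoinRoot.root (g.map (algebraMap ℤ ℚ))) q =
      AdjoinRoot.mk (g.map (algebraMap ℤ ℚ)) (q.map (algebraMap ℤ ℚ)) := by
    intro q
    rw [← AdjoinRoot.aeval_eq, aeval_map_algebraMap]
  have hα : aeval (AdjoinRoot.root (g.map (algebraMap ℤ ℚ))) g = 0 := by
    rw [haev, AdjoinRoot.mk_self]
  have hαi : IsIntegral ℤ (AdjoinRoot.root (g.map (algebraMap ℤ ℚ))) := ⟨g, hgm, hα⟩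
  obtain ⟨w, hw⟩ : ∃ w : 𝓞 (AdjoinRoot (g.map (algebraMap ℤ ℚ))),
      algebraMap _ (AdjoinRoot (g.map (algebraMap ℤ ℚ))) w = AdjoinRoot.root (g.map (algebraMap ℤ ℚ)) :=
    ⟨⟨_, hαi⟩, rfl⟩
  have hw' : (w : AdjoinRoot (g.map (algebraMap ℤ ℚ))) = AdjoinRoot.root (g.map (algebraMap ℤ ℚ)) := hw
  have hcoe : ∀ q : ℤ[X], algebraMap _ (AdjoinRoot (g.map (algebraMap ℤ ℚ))) (aeval w q) =
      aeval (AdjoinRoot.root (g.map (algebraMap ℤ ℚ))) q := by
    intro q
    rw [← hw, aeval_algebraMap_apply]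
  refine ⟨AdjoinRoot (g.map (algebraMap ℤ ℚ)), inferInstance, hnf, w, ?_, ?_, ?_, ?_, ?_⟩
  · rw [(AdjoinRoot.powerBasis hgQ.ne_zero).finrank, AdjoinRoot.powerBasis_dim, hgQd]
  · apply RingOfIntegers.ext
    have := hcoe g
    rw [hα] at this
    simpa using this
  · intro q hq
    have h1 := hcoe q
    rw [hq, map_zero, haev, eq_comm, AdjoinRoot.mk_eq_zero] at h1
    exact (Polynomial.map_dvd_map _ (RingHom.injective_int _) hgm).mp h1
  · intro K _ _ z hz
    refine ⟨AdjoinRoot.lift (algebraMap ℚ K) z ?_, ?_⟩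
    · rw [eval₂_map]
      have : (algebraMap ℚ K).comp (algebraMap ℤ ℚ) = algebraMap ℤ K := RingHom.ext_int _ _
      rw [this, ← aeval_def]
      exact hz
    · rw [hw']; exact AdjoinRoot.lift_root _
  · intro K _ τ τ' h
    apply RingHom.ext
    intro x
    obtain ⟨q, rfl⟩ := AdjoinRoot.mk_surjective x
    have : τ.comp (AdjoinRoot.mk (g.map (algebraMap ℤ ℚ))) = τ'.comp (AdjoinRoot.mk (g.map (algebraMap ℤ ℚ))) := by
      apply Polynomial.ringHom_ext
      · intro a
        have h1 : (τ.comp (AdjoinRoot.mk (g.map (algebraMap ℤ ℚ)))).comp C =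
          (τ'.comp (AdjoinRoot.mk (g.map (algebraMap ℤ ℚ)))).comp C := Subsingleton.elim _ _
        exact RingHom.congr_fun h1 a
      · rw [hw'] at h; exact h
    exact RingHom.congr_fun this q

end H39E1
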