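import Mathlib

open NumberField Polynomial

namespace H39E1

set_option linter.unusedSectionVars false

theorem hensel_root (p : ℕ) [hp : Fact p.Prime] (g : ℤ[X]) (a : ℤ) (h0 : (p : ℤ) ∣ g.eval a)
    (h1 : ¬ (p : ℤ) ∣ g.derivative.eval a) :
    ∃ z : ℤ_[p], aeval z g = 0 ∧ PadicInt.toZMod z = (a : ZMod p) := by
  have e0 : aeval (a : ℤ_[p]) g = ((g.eval a : ℤ) : ℤ_[p]) := by
    have := Polynomial.aeval_algebraMap_apply_eq_algebraMap_eval (A := ℤ_[p]) a g
    simpa using this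
  have e1 : aeval (a : ℤ_[p]) g.derivative = ((g.derivative.eval a : ℤ) : ℤ_[p]) := by
    have := Polynomial.aeval_algebraMap_apply_eq_algebraMap_eval (A := ℤ_[p]) a g.derivative
    simpa using this
  have n1 : ‖aeval (a : ℤ_[p]) g.derivative‖ = 1 := by
    rw [e1]
    apply le_antisymm (PadicInt.norm_le_one _)
    by_contra hlt
    push Not at hlt
    exact h1 ((PadicInt.norm_int_lt_one_iff_dvd _).mp hlt)
  have n0 : ‖aeval (a : ℤ_[p]) g‖ < 1 := by
    rw [e0]
    exact (PadicInt.norm_int_lt_one_iff_dvd _).mpr h0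
  obtain ⟨z, hz, hza, -, -⟩ := hensels_lemma (F := g) (a := (a : ℤ_[p])) (by rw [n1]; simpa using n0)
  refine ⟨z, hz, ?_⟩
  rw [n1] at hza
  have h2 : z - (a : ℤ_[p]) ∈ RingHom.ker (PadicInt.toZMod : ℤ_[p] →+* ZMod p) := by
    rw [PadicInt.ker_toZMod, PadicInt.maximalIdeal_eq_span_p, Ideal.mem_span_singleton,
      ← PadicInt.norm_lt_one_iff_dvd]
    exact hza
  rw [RingHom.mem_ker, map_sub, sub_eq_zero] at h2
  rw [h2]
  simp

variable {F : Type} [Field F] [NumberField F]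

theorem exists_hom_padicInt (p : ℕ) [hp : Fact p.Prime] (τ : F →+* ℚ_[p]) :
    ∃ θ : 𝓞 F →+* ℤ_[p], ∀ x : 𝓞 F, ((θ x : ℤ_[p]) : ℚ_[p]) = τ (x : F) := by
  have key : ∀ x : 𝓞 F, ∃ y : ℤ_[p], (y : ℚ_[p]) = τ (x : F) := by
    intro x
    have hx : IsIntegral ℤ (x : F) := RingOfIntegers.isIntegral_coe x
    have h1 : IsIntegral ℤ (τ (x : F)) := by
      have := hx.map (τ.toIntAlgHom)
      exact this
    have h2 : IsIntegral ℤ_[p] (τ (x : F)) := h1.tower_top
    exact IsIntegrallyClosed.isIntegral_iff.mp h2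
  choose f hf using key
  refine ⟨{ toFun := f, map_one' := ?_, map_mul' := ?_, map_zero' := ?_, map_add' := ?_}, hf⟩
  · apply PadicInt.ext; rw [hf]; simp
  · intro x y; apply PadicInt.ext; rw [PadicInt.coe_mul, hf, hf, hf]; simp
  · apply PadicInt.ext; rw [hf]; simp
  · intro x y; apply PadicInt.ext; rw [PadicInt.coe_add, hf, hf, hf]; simp

end H39E1
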