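import Mathlib

open NumberField Ideal Polynomial

namespace H39E1

set_option linter.unusedSectionVars false

variable {F : Type} [Field F] [NumberField F]

/-- Lying over for the (not nec. maximal) order `ℤ[w]`. -/
theorem exists_prime_of_hom (w : 𝓞 F) (g : ℤ[X])
    (hw : ∀ q : ℤ[X], aeval w q = 0 → g ∣ q)
    {k : Type*} [Field k] (φ : ℤ[X] →+* k) (hφ : φ g = 0) :
    ∃ Q : Ideal (𝓞 F), Q.IsPrime ∧ ∀ q : ℤ[X], aeval w q ∈ Q ↔ φ q = 0 := by
  let _ : Algebra ℤ[X] (𝓞 F) := (aeval w : ℤ[X] →ₐ[ℤ] 𝓞 F).toRingHom.toAlgebra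
  have hsc : IsScalarTower ℤ ℤ[X] (𝓞 F) := IsScalarTower.of_algebraMap_eq' (by
    ext; simp)
  have hint : Algebra.IsIntegral ℤ[X] (𝓞 F) := Algebra.IsIntegral.tower_top (R := ℤ)
  have hker : (RingHom.ker φ).IsPrime := RingHom.ker_isPrime φ
  obtain ⟨Q, -, hQp, hQ⟩ := exists_ideal_over_prime_of_isIntegral (R := ℤ[X]) (S := 𝓞 F)
    (RingHom.ker φ) ⊥ (by
      intro q hq
      have h1 : aeval w q = 0 := by
        rw [Ideal.mem_comap, Ideal.mem_bot] at hq
        exact hq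
      obtain ⟨c, rfl⟩ := hw q h1
      rw [RingHom.mem_ker, map_mul, hφ, zero_mul])
  refine ⟨Q, hQp, fun q => ?_⟩
  have : q ∈ Q.comap (algebraMap ℤ[X] (𝓞 F)) ↔ q ∈ RingHom.ker φ := by rw [hQ]
  rw [RingHom.mem_ker] at this
  exact this

/-- the prime attached to a root `a` mod `p` -/
theorem liesOver_of_mem (p : ℤ) (hp : Prime p) (Q : Ideal (𝓞 F)) [Q.IsPrime]
    (hQ : (p : 𝓞 F) ∈ Q) : Q.LiesOver (span {p}) :=
  (Ideal.liesOver_span_iff (IsPrime.ne_top ‹_›) hp).mpr hQ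

/-- lower bound for the inertia degree -/
theorem le_inertiaDeg (p : ℕ) [hp : Fact p.Prime] (w : 𝓞 F) (G : (ZMod p)[X]) (hG : Irreducible G)
    (Q : Ideal (𝓞 F)) [Q.IsPrime] 
    (hQ : ∀ q : ℤ[X], aeval w q ∈ Q ↔ G ∣ q.map (Int.castRingHom (ZMod p))) :
    G.natDegree ≤ Q.inertiaDeg ℤ := by
  have hp0 := hp.out
  have hpQ : (((p : ℤ) : ℤ) : 𝓞 F) ∈ Q := by
    have := (hQ (C (p : ℤ))).mpr (by simp)
    simpa using this
  have hl : Q.LiesOver (span {(p : ℤ)}) := liesOver_of_mem (p : ℤ) (Nat.prime_iff_prime_int.mp hp0) Q hpQ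
  have hpow := pow_inertiaDeg p Q
  have hQ0 : Q ≠ ⊥ := by
    rintro rfl
    rw [Ideal.mem_bot] at hpQ
    have : (p : ℤ) = 0 := by exact_mod_cast hpQ
    exact hp0.ne_zero (by exact_mod_cast this)
  have hfin : Finite (𝓞 F ⧸ Q) := Ideal.finiteQuotientOfFreeOfNeBot Q hQ0
  let d := G.natDegree
  let lift : (Fin d → ZMod p) → ℤ[X] := fun c => ∑ i : Fin d, C (((c i).val : ℤ)) * X ^ (i : ℕ)
  have hlift : ∀ c, (lift c).map (Int.castRingHom (ZMod p)) = ∑ i : Fin d, C (c i) * X ^ (i : ℕ) := by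
    intro c
    simp only [lift, Polynomial.map_sum, Polynomial.map_mul, Polynomial.map_pow, map_X, map_C]
    refine Finset.sum_congr rfl fun i _ => ?_
    congr 2
    simp
  let f : (Fin d → ZMod p) → 𝓞 F ⧸ Q := fun c => Ideal.Quotient.mk Q (aeval w (lift c))
  have hf : Function.Injective f := by
    intro c c' hcc
    have h1 : aeval w (lift c - lift c') ∈ Q := by
      rw [map_sub]
      exact Ideal.Quotient.eq.mp hcc
    rw [hQ, Polynomial.map_sub, hlift, hlift, ← Finset.sum_sub_distrib] at h1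
    have h2 : (∑ i : Fin d, (C (c i) * X ^ (i : ℕ) - C (c' i) * X ^ (i : ℕ)) : (ZMod p)[X]) =
        ∑ i : Fin d, C (c i - c' i) * X ^ (i : ℕ) := by
      refine Finset.sum_congr rfl fun i _ => ?_
      rw [C_sub, sub_mul]
    rw [h2] at h1
    have h3 : (∑ i : Fin d, C (c i - c' i) * X ^ (i : ℕ) : (ZMod p)[X]) = 0 := by
      apply Polynomial.eq_zero_of_dvd_of_degree_lt h1
      rw [Polynomial.degree_eq_natDegree hG.ne_zero]
      refine lt_of_le_of_lt (Polynomial.degree_sum_le _ _) ?_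
      rw [Finset.sup_lt_iff (by exact WithBot.bot_lt_coe _)]
      intro i _
      refine lt_of_le_of_lt (Polynomial.degree_C_mul_X_pow_le _ _) ?_
      exact_mod_cast i.2
    funext i
    have h4 := congrArg (fun q => q.coeff (i : ℕ)) h3
    simp only [Polynomial.finsetSum_coeff, Polynomial.coeff_C_mul, Polynomial.coeff_X_pow,
      Polynomial.coeff_zero] at h4
    rw [Finset.sum_eq_single i] at h4
    · simpa [sub_eq_zero] using h4
    · intro j _ hj
      rw [if_neg (fun h => hj (Fin.ext h.symm)), mul_zero]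
    · intro h; exact absurd (Finset.mem_univ _) h
  have hcard := Nat.card_le_card_of_injective f hf
  rw [Nat.card_eq_fintype_card, Fintype.card_fun, Fintype.card_fin, ZMod.card] at hcard
  have h5 : Nat.card (𝓞 F ⧸ Q) = p ^ Q.inertiaDeg ℤ := by
    rw [hpow, Ideal.absNorm_apply, Submodule.cardQuot_apply]
  rw [h5] at hcard
  exact (Nat.pow_le_pow_iff_right hp0.one_lt).mp hcard

end H39E1
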