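import Mathlib

open Polynomial

namespace H39E1

/-- CRT for monic integer polynomials -/
theorem crt_monic (m : ℕ) (N1 N2 : ℤ) (hN : IsCoprime N1 N2) (H1 H2 : ℤ[X])
    (h1 : H1.Monic) (h2 : H2.Monic) (d1 : H1.natDegree = m) (d2 : H2.natDegree = m) :
    ∃ H : ℤ[X], H.Monic ∧ H.natDegree = m ∧ C N1 ∣ H - H1 ∧ C N2 ∣ H - H2 := by
  obtain ⟨a, b, hab⟩ := hN
  have hle : (C (b * N2) * H1 + C (a * N1) * H2).natDegree ≤ m := by
    apply natDegree_add_le_of_degree_le
    · exact (natDegree_C_mul_le _ _).trans d1.le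
    · exact (natDegree_C_mul_le _ _).trans d2.le
  have hcoef : (C (b * N2) * H1 + C (a * N1) * H2).coeff m = 1 := by
    rw [coeff_add, coeff_C_mul, coeff_C_mul]
    have e1 : H1.coeff m = 1 := by rw [← d1]; exact h1
    have e2 : H2.coeff m = 1 := by rw [← d2]; exact h2
    rw [e1, e2]
    linear_combination hab
  have hmon : (C (b * N2) * H1 + C (a * N1) * H2).Monic := monic_of_natDegree_le_of_coeff_eq_one m hle hcoef
  refine ⟨C (b * N2) * H1 + C (a * N1) * H2, hmon, ?_, ?_, ?_⟩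
  · apply le_antisymm hle
    apply le_natDegree_of_ne_zero
    rw [hcoef]; exact one_ne_zero
  · refine ⟨C a * (H2 - H1), ?_⟩
    have : C (b * N2) = 1 - C (a * N1) := by
      rw [← C_1, ← C_sub]; congr 1; linear_combination hab
    rw [this, C_mul]; ring
  · refine ⟨C b * (H1 - H2), ?_⟩
    have : C (a * N1) = 1 - C (b * N2) := by
      rw [← C_1, ← C_sub]; congr 1; linear_combination hab
    rw [this, C_mul]; ring

/-- the sign of `∏ (2j-1-2i)` -/
theorem sign_prod (m j : ℕ) (hj : j ≤ m) :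
    1 ≤ (-1 : ℤ) ^ (m - j) * ∏ i ∈ Finset.range m, (2 * (j : ℤ) - 1 - 2 * i) := by
  have h1 : 1 ≤ ∏ i ∈ Finset.range j, (2 * (j : ℤ) - 1 - 2 * i) := by
    have : ∀ s : Finset ℕ, (∀ i ∈ s, i < j) → 1 ≤ ∏ i ∈ s, (2 * (j : ℤ) - 1 - 2 * i) := by
      intro s
      induction s using Finset.induction_on with
      | empty => intro _; simp
      | insert a s ha ih =>
        intro h
        rw [Finset.prod_insert ha]
        have ha' := h a (Finset.mem_insert_self _ _)
        have ih' := ih (fun i hi => h i (Finset.mem_insert_of_mem hi))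
        have : (1:ℤ) ≤ 2 * (j : ℤ) - 1 - 2 * a := by
          have : (a : ℤ) + 1 ≤ j := by exact_mod_cast ha'
          linarith
        nlinarith
    exact this _ (fun i hi => Finset.mem_range.mp hi)
  have h2 : 1 ≤ ∏ i ∈ Finset.Ico j m, (-(2 * (j : ℤ) - 1 - 2 * i)) := by
    have : ∀ s : Finset ℕ, (∀ i ∈ s, j ≤ i) → 1 ≤ ∏ i ∈ s, (-(2 * (j : ℤ) - 1 - 2 * i)) := by
      intro s
      induction s using Finset.induction_on with
      | empty => intro _; simp
      | insert a s ha ih =>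
        intro h
        rw [Finset.prod_insert ha]
        have ha' := h a (Finset.mem_insert_self _ _)
        have ih' := ih (fun i hi => h i (Finset.mem_insert_of_mem hi))
        have : (1:ℤ) ≤ -(2 * (j : ℤ) - 1 - 2 * a) := by
          have : (j : ℤ) ≤ a := by exact_mod_cast ha'
          linarith
        nlinarith
    exact this _ (fun i hi => (Finset.mem_Ico.mp hi).1)
  rw [← Finset.prod_range_mul_prod_Ico _ hj]
  rw [Finset.prod_neg, Nat.card_Ico] at h2
  nlinarith


theorem exists_h (m : ℕ) (hm : 2 ≤ m) (N : ℤ) (hN : 0 < N) (H : ℤ[X]) (hH : H.Monic)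
    (hd : H.natDegree = m) :
    ∃ h : ℤ[X], h.Monic ∧ h.natDegree = m ∧ C N ∣ h - H ∧ ∃ L : ℤ, 433 ≤ L ∧
      1 ≤ (-1) ^ m * h.eval (-1) ∧ 1 ≤ (-1) ^ m * h.eval (-433) ∧
      ∀ j : ℕ, j ≤ m → 1 ≤ (-1) ^ (m - j) * h.eval (L * (2 * (j : ℤ) + 1)) := by
  set L : ℤ := 433 + m * N * (2 * m + 1) ^ (m - 1) with hL
  have hmN : 0 ≤ (m : ℤ) * N * (2 * m + 1) ^ (m - 1) := by positivity
  have hL433 : 433 ≤ L := by rw [hL]; linarith
  have hL1 : (m : ℤ) * N * (2 * m + 1) ^ (m - 1) ≤ L - 1 := by rw [hL]; linarith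
  have hLpos : 0 < L := by linarith
  set P : ℤ[X] := ∏ i ∈ Finset.range m, (X - C (2 * L * ((i : ℤ) + 1))) with hP
  have hPm : P.Monic := monic_prod_of_monic _ _ (fun i _ => monic_X_sub_C _)
  have hPd : P.natDegree = m := by
    rw [hP, natDegree_prod_of_monic _ _ (fun i _ => monic_X_sub_C _)]
    rw [Finset.sum_congr rfl (fun i _ => natDegree_X_sub_C _), Finset.sum_const, Finset.card_range,
      smul_eq_mul, mul_one]
  set D : ℤ[X] := H - P with hD
  have hDd : ∀ i, m ≤ i → D.coeff i = 0 := by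
    intro i hi
    rw [hD, coeff_sub]
    rcases hi.eq_or_lt with rfl | hi
    · have e1 : H.coeff m = 1 := by rw [← hd]; exact hH
      have e2 : P.coeff m = 1 := by
        have := hPm.coeff_natDegree
        rwa [hPd] at this
      rw [e1, e2, sub_self]
    · rw [coeff_eq_zero_of_natDegree_lt (by omega), coeff_eq_zero_of_natDegree_lt (by omega), sub_self]
  set R : ℤ[X] := ∑ i ∈ Finset.range m, C (D.coeff i % N) * X ^ i with hR
  have hRc : ∀ i, R.coeff i = if i < m then D.coeff i % N else 0 := by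
    intro i
    rw [hR, finsetSum_coeff]
    simp only [coeff_C_mul, coeff_X_pow, mul_ite, mul_one, mul_zero]
    rw [Finset.sum_ite_eq]
    simp only [Finset.mem_range]
  have hRd : R.degree < m := by
    rw [degree_lt_iff_coeff_zero]
    intro i hi
    rw [hRc, if_neg (by omega)]
  have hbound : ∀ x B : ℤ, 1 ≤ B → |x| ≤ B → |R.eval x| ≤ m * N * B ^ (m - 1) := by
    intro x B hB hx
    rw [hR, eval_finsetSum]
    refine (Finset.abs_sum_le_sum_abs _ _).trans ?_
    have : ∀ i ∈ Finset.range m, |eval x (C (D.coeff i % N) * X ^ i)| ≤ N * B ^ (m - 1) := by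
      intro i hi
      rw [Finset.mem_range] at hi
      rw [eval_C_mul, eval_pow, eval_X, abs_mul, abs_pow]
      have h1 : |D.coeff i % N| ≤ N := by
        rw [abs_of_nonneg (Int.emod_nonneg _ hN.ne')]
        exact (Int.emod_lt_of_pos _ hN).le
      have h2 : |x| ^ i ≤ B ^ (m - 1) := by
        calc |x| ^ i ≤ B ^ i := pow_le_pow_left₀ (abs_nonneg _) hx _
          _ ≤ B ^ (m - 1) := pow_le_pow_right₀ hB (by omega)
      exact mul_le_mul h1 h2 (by positivity) hN.le
    refine (Finset.sum_le_sum this).trans ?_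
    rw [Finset.sum_const, Finset.card_range, nsmul_eq_mul, mul_assoc]
  have hbound2 : ∀ x : ℤ, |x| ≤ L * (2 * m + 1) → |R.eval x| ≤ L ^ m - 1 := by
    intro x hx
    have hB : 1 ≤ L * (2 * (m : ℤ) + 1) := by
      have : (0:ℤ) ≤ m := by positivity
      nlinarith
    refine (hbound x _ hB hx).trans ?_
    rw [mul_pow]
    have h3 : (m : ℤ) * N * (L ^ (m - 1) * (2 * m + 1) ^ (m - 1)) =
      ((m : ℤ) * N * (2 * m + 1) ^ (m - 1)) * L ^ (m - 1) := by ring
    rw [h3]
    have h4 : (1 : ℤ) ≤ L ^ (m - 1) := one_le_pow₀ (by linarith)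
    have h5 : L ^ m = L * L ^ (m - 1) := by
      rw [← pow_succ']; congr 1; omega
    rw [h5]
    nlinarith
  have hev : ∀ x : ℤ, (P + R).eval x = ∏ i ∈ Finset.range m, (x - 2 * L * ((i : ℤ) + 1)) + R.eval x := by
    intro x
    rw [eval_add, hP, eval_prod]
    simp only [eval_sub, eval_X, eval_C]
  have hneg : ∀ a : ℤ, 0 ≤ a → a ≤ 433 → 1 ≤ (-1) ^ m * (P + R).eval (-a) := by
    intro a ha ha'
    rw [hev]
    have h1 : L ^ m ≤ (-1) ^ m * ∏ i ∈ Finset.range m, (-a - 2 * L * ((i : ℤ) + 1)) := by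
      have : (-1 : ℤ) ^ m * ∏ i ∈ Finset.range m, (-a - 2 * L * ((i : ℤ) + 1)) =
        ∏ i ∈ Finset.range m, (a + 2 * L * ((i : ℤ) + 1)) := by
        have h := Finset.prod_neg (s := Finset.range m) (f := fun i : ℕ => (-a - 2 * L * ((i : ℤ) + 1)))
        rw [Finset.card_range] at h
        rw [← h]
        refine Finset.prod_congr rfl fun i _ => by ring
      rw [this]
      calc L ^ m = ∏ i ∈ Finset.range m, L := by rw [Finset.prod_const, Finset.card_range]
        _ ≤ _ := Finset.prod_le_prod (fun i _ => hLpos.le) (fun i _ => by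
          have : (0:ℤ) ≤ i := by positivity
          nlinarith)
    have h2 := hbound2 (-a) (by
      rw [abs_neg, abs_of_nonneg ha]
      have : (0:ℤ) ≤ m := by positivity
      nlinarith)
    have h3 : -(L ^ m - 1) ≤ (-1) ^ m * R.eval (-a) := by
      have : |(-1) ^ m * R.eval (-a)| ≤ L ^ m - 1 := by
        rw [abs_mul, abs_pow, abs_neg, abs_one, one_pow, one_mul]; exact h2
      exact (abs_le.mp this).1
    rw [mul_add]
    linarith
  refine ⟨P + R, ?_, ?_, ?_, L, hL433, ?_, ?_, ?_⟩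
  · apply hPm.add_of_left
    rw [degree_eq_natDegree hPm.ne_zero, hPd]
    exact hRd
  · rw [natDegree_add_eq_left_of_degree_lt, hPd]
    rw [degree_eq_natDegree hPm.ne_zero, hPd]
    exact hRd
  · have : P + R - H = R - D := by rw [hD]; ring
    rw [this, C_dvd_iff_dvd_coeff]
    intro i
    rw [coeff_sub, hRc]
    split_ifs with hi
    · refine ⟨-(D.coeff i / N), ?_⟩
      have := Int.emod_add_mul_ediv (D.coeff i) N
      linarith
    · rw [hDd i (by omega), sub_self]
      exact dvd_zero _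
  · exact hneg 1 (by norm_num) (by norm_num)
  · exact hneg 433 (by norm_num) (by norm_num)
  · intro j hj
    rw [hev]
    have h1 : L ^ m ≤ (-1) ^ (m - j) * ∏ i ∈ Finset.range m, (L * (2 * (j : ℤ) + 1) - 2 * L * ((i : ℤ) + 1)) := by
      have : ∏ i ∈ Finset.range m, (L * (2 * (j : ℤ) + 1) - 2 * L * ((i : ℤ) + 1)) =
        L ^ m * ∏ i ∈ Finset.range m, (2 * (j : ℤ) - 1 - 2 * i) := by
        calc _ = ∏ i ∈ Finset.range m, (L * (2 * (j : ℤ) - 1 - 2 * i)) :=
              Finset.prod_congr rfl fun i _ => by ring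
          _ = _ := by rw [Finset.prod_mul_distrib, Finset.prod_const, Finset.card_range]
      rw [this]
      have hs := sign_prod m j hj
      have hLm : 0 < L ^ m := by positivity
      calc L ^ m = L ^ m * 1 := (mul_one _).symm
        _ ≤ L ^ m * ((-1) ^ (m - j) * ∏ i ∈ Finset.range m, (2 * (j : ℤ) - 1 - 2 * i)) :=
          mul_le_mul_of_nonneg_left hs hLm.le
        _ = _ := by ring
    have h2 := hbound2 (L * (2 * (j : ℤ) + 1)) (by
      have hj' : (j : ℤ) ≤ m := by exact_mod_cast hj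
      have hj0 : (0:ℤ) ≤ j := by positivity
      rw [abs_of_nonneg (by positivity)]
      nlinarith)
    have h3 : -(L ^ m - 1) ≤ (-1) ^ (m - j) * R.eval (L * (2 * (j : ℤ) + 1)) := by
      have : |(-1) ^ (m - j) * R.eval (L * (2 * (j : ℤ) + 1))| ≤ L ^ m - 1 := by
        rw [abs_mul, abs_pow, abs_neg, abs_one, one_pow, one_mul]; exact h2
      exact (abs_le.mp this).1
    rw [mul_add]
    linarith


theorem eval_dvd_of_C_dvd {N : ℤ} {q : ℤ[X]} (h : C N ∣ q) (x : ℤ) : N ∣ q.eval x := by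
  obtain ⟨c, rfl⟩ := h
  rw [eval_mul, eval_C]
  exact dvd_mul_right _ _

theorem deriv_dvd_of_C_dvd {N : ℤ} {q : ℤ[X]} (h : C N ∣ q) : C N ∣ derivative q := by
  obtain ⟨c, rfl⟩ := h
  rw [derivative_C_mul]
  exact dvd_mul_right _ _

theorem map_eq_of_C_dvd {N : ℕ} {q q' : ℤ[X]} (h : C (N : ℤ) ∣ q - q') :
    q.map (Int.castRingHom (ZMod N)) = q'.map (Int.castRingHom (ZMod N)) := by
  rw [← sub_eq_zero, ← Polynomial.map_sub]
  obtain ⟨c, hc⟩ := h
  rw [hc, Polynomial.map_mul, map_C]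
  simp

theorem exists_good_h (m : ℕ) (hm : 2 ≤ m) (hme : Even m) (p : ℕ) (hp : p.Prime) (hp433 : 433 < p)
    (H2 : (ZMod 2)[X]) (hH2 : H2.Monic) (hH2d : H2.natDegree = m) :
    ∃ h : ℤ[X], h.Monic ∧ h.natDegree = m ∧ h.map (Int.castRingHom (ZMod 2)) = H2 ∧
      (7 ∣ h.eval 3 + 2) ∧ (7 ∣ h.eval 5 + 6) ∧ (7 ∣ h.derivative.eval 3 + 4) ∧
      (7 ∣ h.derivative.eval 5) ∧
      ((p : ℤ) ^ 2 ∣ 433 * h.eval 1 - 1 - p) ∧
      ((p : ℤ) ^ 2 ∣ 434 * h.eval 1 + 433 * h.derivative.eval 1) ∧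
      ∃ L : ℤ, 433 ≤ L ∧
      1 ≤ (-1) ^ m * h.eval (-1) ∧ 1 ≤ (-1) ^ m * h.eval (-433) ∧
      ∀ j : ℕ, j ≤ m → 1 ≤ (-1) ^ (m - j) * h.eval (L * (2 * (j : ℤ) + 1)) := by
  obtain ⟨r, hr⟩ : ∃ r, m = r + 2 := ⟨m - 2, by omega⟩
  -- lift of H2
  obtain ⟨H2', hH2', hH2'd, hH2'm⟩ := lifts_and_natDegree_eq_and_monic
    (f := Int.castRingHom (ZMod 2)) (p := H2) (by
      rw [mem_lifts]
      exact Polynomial.map_surjective _ (ZMod.ringHom_surjective _) H2) hH2
  -- mod 7
  set H7 : ℤ[X] := (X - C 3) * (X - C 5) * (X - C 4) ^ r + (C (-2) * X + C 4) with hH7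
  have hA7 : ((X - C 3) * (X - C 5) * (X - C 4) ^ r : ℤ[X]).Monic :=
    ((monic_X_sub_C _).mul (monic_X_sub_C _)).mul ((monic_X_sub_C _).pow _)
  have hA7d : ((X - C 3) * (X - C 5) * (X - C 4) ^ r : ℤ[X]).natDegree = m := by
    rw [((monic_X_sub_C _).mul (monic_X_sub_C _)).natDegree_mul ((monic_X_sub_C _).pow _),
      (monic_X_sub_C _).natDegree_mul (monic_X_sub_C _), (monic_X_sub_C _).natDegree_pow,
      natDegree_X_sub_C, natDegree_X_sub_C, natDegree_X_sub_C, hr]
    ring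
  have hlin : (C (-2) * X + C 4 : ℤ[X]).degree <
      ((X - C 3) * (X - C 5) * (X - C 4) ^ r : ℤ[X]).degree := by
    rw [degree_eq_natDegree hA7.ne_zero, hA7d]
    refine lt_of_le_of_lt degree_linear_le ?_
    exact_mod_cast hm
  have hH7m : H7.Monic := hA7.add_of_left hlin
  have hH7d : H7.natDegree = m := by
    rw [hH7, natDegree_add_eq_left_of_degree_lt hlin, hA7d]
  -- mod p ^ 2
  have hcop : IsCoprime (433 : ℤ) ((p : ℤ) ^ 2) := by
    apply IsCoprime.pow_right
    rw [Int.isCoprime_iff_gcd_eq_one]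
    have : Nat.Coprime 433 p := by
      have h433 : Nat.Prime 433 := by norm_num
      exact (Nat.coprime_primes h433 hp).mpr (by omega)
    exact this
  obtain ⟨a, b, hab⟩ := hcop
  set c : ℤ := a * (1 + p) with hc
  set d : ℤ := -(a * 434 * c) with hd
  set Hp : ℤ[X] := (X - C 1) ^ 2 * X ^ r + (C d * (X - C 1) + C c) with hHp
  have hAp : ((X - C 1) ^ 2 * X ^ r : ℤ[X]).Monic := ((monic_X_sub_C _).pow _).mul (monic_X_pow _)
  have hApd : ((X - C 1) ^ 2 * X ^ r : ℤ[X]).natDegree = m := by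
    rw [((monic_X_sub_C _).pow _).natDegree_mul (monic_X_pow _), (monic_X_sub_C _).natDegree_pow,
      natDegree_X_sub_C, natDegree_X_pow, hr]
    ring
  have hlinp : (C d * (X - C 1) + C c : ℤ[X]).degree < ((X - C 1) ^ 2 * X ^ r : ℤ[X]).degree := by
    rw [degree_eq_natDegree hAp.ne_zero, hApd]
    have : (C d * (X - C 1) + C c : ℤ[X]) = C d * X + C (c - d) := by
      rw [C_sub]; simp; ring
    rw [this]
    refine lt_of_le_of_lt degree_linear_le ?_
    exact_mod_cast hm
  have hHpm : Hp.Monic := hAp.add_of_left hlinp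
  have hHpd : Hp.natDegree = m := by
    rw [hHp, natDegree_add_eq_left_of_degree_lt hlinp, hApd]
  -- CRT
  obtain ⟨H27, h27m, h27d, h27a, h27b⟩ := crt_monic m 2 7 (by norm_num) H2' H7 hH2'm hH7m
    (by rw [hH2'd, hH2d]) hH7d
  have hcop14 : IsCoprime (14 : ℤ) ((p : ℤ) ^ 2) := by
    apply IsCoprime.pow_right
    rw [Int.isCoprime_iff_gcd_eq_one]
    have : Nat.Coprime 14 p := by
      rw [Nat.coprime_comm, Nat.Prime.coprime_iff_not_dvd hp]
      intro hdvd
      have := Nat.le_of_dvd (by norm_num) hdvd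
      omega
    exact this
  obtain ⟨H, hHm, hHd, hHa, hHb⟩ := crt_monic m 14 ((p : ℤ) ^ 2) hcop14 H27 Hp h27m hHpm h27d hHpd
  have hpp : (0 : ℤ) < (p : ℤ) ^ 2 := by
    have := hp.pos
    positivity
  obtain ⟨h, hhm, hhd, hhN, L, hL, hL1, hL2, hL3⟩ := exists_h m hm (14 * (p : ℤ) ^ 2) (by linarith) H hHm hHd
  have k14 : C (14 : ℤ) ∣ h - H27 := by
    have h1 : C (14 : ℤ) ∣ h - H := by
      rw [C_mul] at hhN
      exact (dvd_mul_right _ _).trans hhN
    have := dvd_add h1 hHa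
    rwa [sub_add_sub_cancel] at this
  have k2 : C (2 : ℤ) ∣ h - H2' := by
    have h1 : C (2 : ℤ) ∣ h - H27 := by
      refine dvd_trans ?_ k14
      exact ⟨C 7, by rw [← C_mul]; norm_num⟩
    have := dvd_add h1 h27a
    rwa [sub_add_sub_cancel] at this
  have k7 : C (7 : ℤ) ∣ h - H7 := by
    have h1 : C (7 : ℤ) ∣ h - H27 := by
      refine dvd_trans ?_ k14
      exact ⟨C 2, by rw [← C_mul]; norm_num⟩
    have := dvd_add h1 h27b
    rwa [sub_add_sub_cancel] at this
  have kp : C ((p : ℤ) ^ 2) ∣ h - Hp := by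
    have h1 : C ((p : ℤ) ^ 2) ∣ h - H := by
      rw [C_mul] at hhN
      exact (dvd_mul_left _ _).trans hhN
    have := dvd_add h1 hHb
    rwa [sub_add_sub_cancel] at this
  have hre : Even r := by
    rw [hr] at hme
    exact (Nat.even_add.mp hme).mpr (by decide)
  refine ⟨h, hhm, hhd, ?_, ?_, ?_, ?_, ?_, ?_, ?_, L, hL, hL1, hL2, hL3⟩
  · rw [← hH2']
    exact map_eq_of_C_dvd (N := 2) (by exact_mod_cast k2)
  · have h1 := eval_dvd_of_C_dvd k7 3
    rw [eval_sub, hH7] at h1
    simp only [eval_add, eval_mul, eval_sub, eval_X, eval_C, eval_pow] at h1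
    norm_num at h1
    exact h1
  · have h1 := eval_dvd_of_C_dvd k7 5
    rw [eval_sub, hH7] at h1
    simp only [eval_add, eval_mul, eval_sub, eval_X, eval_C, eval_pow] at h1
    norm_num at h1
    exact h1
  · have h1 := eval_dvd_of_C_dvd (deriv_dvd_of_C_dvd k7) 3
    rw [derivative_sub, eval_sub, hH7] at h1
    have h2 : (derivative ((X - C 3) * (X - C 5) * (X - C 4) ^ r + (C (-2) * X + C 4) : ℤ[X])).eval 3 = -4 := by
      rw [derivative_add, derivative_mul, derivative_mul]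
      simp only [derivative_sub, derivative_add, derivative_X, derivative_C, derivative_C_mul,
        eval_add, eval_mul, eval_sub, eval_X, eval_C, eval_pow, eval_one]
      norm_num
      rw [hre.neg_one_pow]
      norm_num
    rw [h2] at h1
    simpa using h1
  · have h1 := eval_dvd_of_C_dvd (deriv_dvd_of_C_dvd k7) 5
    rw [derivative_sub, eval_sub, hH7] at h1
    have h2 : (derivative ((X - C 3) * (X - C 5) * (X - C 4) ^ r + (C (-2) * X + C 4) : ℤ[X])).eval 5 = 0 := by
      rw [derivative_add, derivative_mul, derivative_mul]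
      simp only [derivative_sub, derivative_add, derivative_X, derivative_C, derivative_C_mul,
        eval_add, eval_mul, eval_sub, eval_X, eval_C, eval_pow, eval_one]
      norm_num
    rw [h2] at h1
    simpa using h1
  · have h1 := eval_dvd_of_C_dvd kp 1
    rw [eval_sub, hHp] at h1
    simp only [eval_add, eval_mul, eval_sub, eval_X, eval_C, eval_pow, sub_self] at h1
    obtain ⟨e, he⟩ := h1
    refine ⟨433 * e - b * (1 + p), ?_⟩
    have he' : h.eval 1 = c + (p : ℤ) ^ 2 * e := by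
      have : (0 : ℤ) ^ 2 * 1 ^ r + (d * 0 + c) = c := by ring
      rw [this] at he
      linarith
    rw [he', hc]
    linear_combination (1 + (p : ℤ)) * hab
  · have h1 := eval_dvd_of_C_dvd kp 1
    rw [eval_sub, hHp] at h1
    simp only [eval_add, eval_mul, eval_sub, eval_X, eval_C, eval_pow, sub_self] at h1
    obtain ⟨e, he⟩ := h1
    have he' : h.eval 1 = c + (p : ℤ) ^ 2 * e := by
      have : (0 : ℤ) ^ 2 * 1 ^ r + (d * 0 + c) = c := by ring
      rw [this] at he
      linarith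
    have h2 := eval_dvd_of_C_dvd (deriv_dvd_of_C_dvd kp) 1
    rw [derivative_sub, eval_sub, hHp] at h2
    have h3 : (derivative ((X - C 1) ^ 2 * X ^ r + (C d * (X - C 1) + C c) : ℤ[X])).eval 1 = d := by
      rw [derivative_add, derivative_mul]
      simp only [derivative_sub, derivative_add, derivative_X, derivative_C, derivative_C_mul,
        eval_add, eval_mul, eval_sub, eval_X, eval_C, eval_pow, eval_one, derivative_pow]
      norm_num
    rw [h3] at h2
    obtain ⟨e2, he2⟩ := h2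
    have he2' : h.derivative.eval 1 = d + (p : ℤ) ^ 2 * e2 := by linarith
    refine ⟨434 * e + 433 * e2 + 434 * c * b, ?_⟩
    rw [he', he2', hd]
    linear_combination (434 * c) * hab.symm

end H39E1
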