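import Mathlib

open NumberField Ideal Polynomial

namespace H39E1

set_option linter.unusedSectionVars false

variable {F : Type} [Field F] [NumberField F]

theorem taylor_one (g : ℤ[X]) : ∃ c : ℤ[X], g = C (g.eval 1) + C (g.derivative.eval 1) * (X - 1)
    + (X - 1) ^ 2 * c := by
  have h0 : (X - C (1:ℤ)) ∣ g - C (g.eval 1) := X_sub_C_dvd_sub_C_eval
  obtain ⟨c, hc⟩ := h0
  have h1 : (X - C (1:ℤ)) ∣ c - C (c.eval 1) := X_sub_C_dvd_sub_C_eval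
  obtain ⟨d, hd⟩ := h1
  have hder : g.derivative.eval 1 = c.eval 1 := by
    have hg : g = C (g.eval 1) + (X - C 1) * c := by rw [← hc]; ring
    conv_lhs => rw [hg]
    simp [derivative_mul]
  refine ⟨d, ?_⟩
  have hc2 : c = C (c.eval 1) + (X - C 1) * d := by rw [← hd]; ring
  have hg : g = C (g.eval 1) + (X - C 1) * c := by rw [← hc]; ring
  rw [hder]
  conv_lhs => rw [hg, hc2]
  rw [C_1]
  ring

theorem mem_sq_of_double (p : ℕ) (hp : p.Prime) (w : 𝓞 F) (g : ℤ[X]) (hgw : aeval w g = 0)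
    (Q : Ideal (𝓞 F)) (hpQ : (p : 𝓞 F) ∈ Q) (hwQ : w - 1 ∈ Q)
    (u : ℤ) (hu : ¬ (p : ℤ) ∣ u) (h1 : g.eval 1 = p * u) (h2 : (p : ℤ) ∣ g.derivative.eval 1) :
    (p : 𝓞 F) ∈ Q ^ 2 := by
  obtain ⟨c, hc⟩ := taylor_one g
  obtain ⟨v, hv⟩ := h2
  have h3 : (0 : 𝓞 F) = (p : 𝓞 F) * (u : 𝓞 F) + (p : 𝓞 F) * (v : 𝓞 F) * (w - 1) + (w - 1) ^ 2 * aeval w c := by
    rw [← hgw]
    conv_lhs => rw [hc]
    rw [h1, hv]
    simp
  have hcop : IsCoprime (p : ℤ) u := by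
    exact (Prime.coprime_iff_not_dvd (Nat.prime_iff_prime_int.mp hp)).mpr hu
  obtain ⟨a, b, hab⟩ := hcop
  have hab' : (a : 𝓞 F) * (p : 𝓞 F) + (b : 𝓞 F) * (u : 𝓞 F) = 1 := by exact_mod_cast congrArg (Int.cast : ℤ → 𝓞 F) hab
  have h4 : (p : 𝓞 F) = (a : 𝓞 F) * ((p : 𝓞 F) * (p : 𝓞 F)) - (b : 𝓞 F) * ((v : 𝓞 F) * ((p : 𝓞 F) * (w - 1)) + aeval w c * ((w-1) * (w - 1))) := by
    linear_combination (-(p : 𝓞 F)) * hab' - (b : 𝓞 F) * h3
  rw [h4, sq]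
  refine Ideal.sub_mem _ (Ideal.mul_mem_left _ _ (Ideal.mul_mem_mul hpQ hpQ)) (Ideal.mul_mem_left _ _ (Ideal.add_mem _ (Ideal.mul_mem_left _ _ (Ideal.mul_mem_mul hpQ hwQ)) (Ideal.mul_mem_left _ _ (Ideal.mul_mem_mul hwQ hwQ))))

theorem dvd_discr_of_mem_sq (p : ℕ) (hp : p.Prime) (Q : Ideal (𝓞 F)) [Q.IsPrime]
    (h : (p : 𝓞 F) ∈ Q ^ 2) : (p : ℤ) ∣ discr F := by
  have hpi : Prime (p : ℤ) := Nat.prime_iff_prime_int.mp hp
  have hpQ : (p : 𝓞 F) ∈ Q := Ideal.pow_le_self (by norm_num) h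
  by_contra hnd
  rw [not_dvd_discr_iff_forall_mem F (𝓞 F) hpi] at hnd
  have hun := hnd Q inferInstance (by simpa using hpQ)
  have he := ramificationIdx_eq_one Q ℤ
  have hl : Q.LiesOver (span {(p : ℤ)}) := (Ideal.liesOver_span_iff (IsPrime.ne_top ‹_›) hpi).mpr (by simpa using hpQ)
  have hmap : (span {(p : ℤ)}).map (algebraMap ℤ (𝓞 F)) ≠ ⊥ := by
    rw [Ideal.map_span, Set.image_singleton, Ne, Ideal.span_singleton_eq_bot]
    simp [hp.ne_zero]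
  rw [Ideal.IsDedekindDomain.ramificationIdx_eq_multiplicity (span {(p : ℤ)}) Q hmap] at he
  have hdvd : Q ^ 2 ∣ (span {(p : ℤ)}).map (algebraMap ℤ (𝓞 F)) := by
    rw [Ideal.map_span, Set.image_singleton, Ideal.dvd_span_singleton]
    simpa using h
  have hfin : FiniteMultiplicity Q ((span {(p : ℤ)}).map (algebraMap ℤ (𝓞 F))) := by
    apply FiniteMultiplicity.of_not_isUnit
    · intro hu
      rw [Ideal.isUnit_iff] at hu
      exact IsPrime.ne_top ‹_› hu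
    · exact hmap
  have := hfin.le_multiplicity_of_pow_dvd hdvd
  omega

end H39E1
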